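import Pool.Agent.Helper4.ST.Main

set_option autoImplicit false

namespace Pool.Agent.Results.MP_4c4ce6_nt.QuadraticTwists

open NumberField IsDedekindDomain Matrix MeasureTheory Pool.Agent.Helper4.ST
open scoped MatrixGroups

universe u w

open Classical in
/-- **The odd part of the Sato-Tate law for almost all quadratic twists.**
Let `D` be a strictly compatible symplectic family of odd weight `n` over a number field `K` of
degree at most `d`, with Sato-Tate group `U`, classes `x v` and Haar probability measure `μ`, and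
let `f` be a function on `U` with `‖f‖ ≤ 1` and `f (-u) = - f u`.  Let `0 < 2 / A < θ ≤ 1` and
`κ = (θ - 2 / A) / 12`.  If `Q` is large in terms of `d, θ, A`, then for all but at most `Q ^ θ`
primitive real characters `χ` of conductor `2 ≤ q ≤ Q`, the twist `D ⊗ χ` has the Sato-Tate group
`U` and the classes `y v = χ(q_v) x v`, and
`|∑_{q_v ≤ X} (f (y v) - ∫ f dμ)| ≤ X min(X, Q) ^ (-κ)` for all
`(log Q) ^ A ≤ X ≤ exp (Q ^ κ)`. -/
theorem result (d : ℕ) (θ A : ℝ) (hA : 0 < A) (hθ : 2 / A < θ) (hθ1 : θ ≤ 1) :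
    ∃ Q₀ : ℕ, ∀ (K : Type u) [Field K] [NumberField K] (Ω : Type w) [Field Ω] [CharZero Ω]
      [Algebra K Ω] [IsAlgClosed Ω] [Algebra.IsAlgebraic K Ω] (r n : ℕ) (D : Family K Ω r n)
      (ℓ : ℕ) [Fact ℓ.Prime] (τ : ℚ_[ℓ] →+* ℂ) (U : Subgroup (GL (Fin r) ℂ))
      [MeasurableSpace U] [BorelSpace U] (μ : Measure U) [μ.IsHaarMeasure]
      [IsProbabilityMeasure μ] (x : HeightOneSpectrum (𝓞 K) → U) (f : U → ℂ),
      Module.finrank ℚ K ≤ d → Odd n → D.IsSatoTateGroup ℓ τ U →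
      (∀ v, v ∉ D.bad → (ℓ : 𝓞 K) ∉ v.asIdeal → D.IsSatoTateClass ℓ τ U v (x v)) →
      (∀ u, ‖f u‖ ≤ 1) →
      (∀ u u' : U, (u' : GL (Fin r) ℂ) = -(u : GL (Fin r) ℂ) → f u' = -f u) →
      ∀ Q : ℕ, Q₀ ≤ Q →
      ∃ E : Finset (Σ q : ℕ, DirichletCharacter ℤ q), (E.card : ℝ) ≤ (Q : ℝ) ^ θ ∧
        ∀ (q : ℕ) [NeZero q] (χ : DirichletCharacter ℤ q), 2 ≤ q → q ≤ Q → χ.IsPrimitive →
          (⟨q, χ⟩ : Σ q : ℕ, DirichletCharacter ℤ q) ∉ E →
          (D.twist χ).IsSatoTateGroup ℓ τ U ∧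
          ∃ y : HeightOneSpectrum (𝓞 K) → U,
            (∀ v, v ∉ (D.twist χ).bad → (ℓ : 𝓞 K) ∉ v.asIdeal →
              (D.twist χ).IsSatoTateClass ℓ τ U v (y v) ∧
              ((y v : GL (Fin r) ℂ) : Matrix (Fin r) (Fin r) ℂ) =
                ((χ (qv v : ZMod q) : ℤ) : ℂ) •
                  ((x v : GL (Fin r) ℂ) : Matrix (Fin r) (Fin r) ℂ)) ∧
            ∀ X : ℕ, Real.log Q ^ A ≤ X →
              (X : ℝ) ≤ Real.exp ((Q : ℝ) ^ ((θ - 2 / A) / 12)) →
              ‖∑ v ∈ (primesLE K X).filter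
                  (fun v => v ∉ (D.twist χ).bad ∧ (ℓ : 𝓞 K) ∉ v.asIdeal),
                (f (y v) - ∫ u, f u ∂μ)‖ ≤
                (X : ℝ) * min (X : ℝ) (Q : ℝ) ^ (-((θ - 2 / A) / 12)) := by
  obtain ⟨Q₀, hQ₀⟩ := analytic_main.{u} d θ A hA hθ hθ1
  refine ⟨Q₀, ?_⟩
  intro K _ _ Ω _ _ _ _ _ r n D ℓ _ τ U _ _ μ _ _ x f hd hn hU hx hf hodd Q hQ
  obtain ⟨E, hEcard, hE⟩ := hQ₀ K hd (fun v => v ∉ D.bad ∧ (ℓ : 𝓞 K) ∉ v.asIdeal)
    (fun v => f (x v)) (fun v => hf _) Q hQ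
  refine ⟨E, hEcard, ?_⟩
  intro q _ χ hq2 hqQ hprim hnot
  -- a good prime with a Frobenius element
  have hℓ0 : NeZero ℓ := ⟨(Fact.out : ℓ.Prime).ne_zero⟩
  have hfrob : D.HasFrob ℓ χ := by
    obtain ⟨v, hv⟩ := exists_prime_notMem
      ((D.twist χ).bad ∪ (Family.finite_dvd (K := K) ℓ).toFinset)
    rw [Finset.mem_union, not_or, Set.Finite.mem_toFinset] at hv
    have h1 := hx v ((D.twist_bad χ).1 hv.1).1 hv.2
    obtain ⟨_, σ, hσ, _⟩ := h1
    exact ⟨v, hv.1, hv.2, σ, hσ⟩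
  obtain ⟨v₀, hv₀, hℓ₀, σ₀, hσ₀⟩ := id hfrob
  have hzcl := D.neg_one_mem_zcl ℓ τ hn ((D.twist_bad χ).1 hv₀).1 hℓ₀ hσ₀
  have hneg : (-1 : GL (Fin r) ℂ) ∈ U := D.neg_one_mem ℓ τ hzcl hU
  refine ⟨Family.twist_group D ℓ τ χ hn hfrob hU, ?_⟩
  have hsU : ∀ v, Family.signMul χ (qv v) ((x v : U) : GL (Fin r) ℂ) ∈ U := by
    intro v
    unfold Family.signMul
    split_ifs
    · have := U.mul_mem hneg (x v).2
      rwa [neg_one_mul] at this
    · exact (x v).2
  set y : HeightOneSpectrum (𝓞 K) → U := fun v => ⟨Family.signMul χ (qv v) (x v), hsU v⟩ with hy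
  have hyv : ∀ v, (q : 𝓞 K) ∉ v.asIdeal → f (y v) = ((χ (qv v : ZMod q) : ℤ) : ℂ) * f (x v) := by
    intro v hv
    rcases char_unit χ (qv_coprime v hv) with h1 | h1
    · have h2 : y v = x v := by
        apply Subtype.ext
        simp only [hy, Family.signMul]
        rw [if_neg (by rw [h1]; decide)]
      rw [h2, h1]
      simp
    · have h2 : ((y v : U) : GL (Fin r) ℂ) = -((x v : U) : GL (Fin r) ℂ) := by
        simp only [hy, Family.signMul]
        rw [if_pos h1]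
      rw [hodd _ _ h2, h1]
      simp
  refine ⟨y, ?_, ?_⟩
  · intro v hv hℓv
    have hv' := (D.twist_bad χ).1 hv
    refine ⟨D.twist_class ℓ τ χ hneg hn hfrob hv'.2 (hx v hv'.1 hℓv), ?_⟩
    rcases char_unit χ (qv_coprime v hv'.2) with h1 | h1
    · have h2 : ((y v : U) : GL (Fin r) ℂ) = ((x v : U) : GL (Fin r) ℂ) := by
        simp only [hy, Family.signMul]
        rw [if_neg (by rw [h1]; decide)]
      rw [h2, h1]
      simp
    · have h2 : ((y v : U) : GL (Fin r) ℂ) = -((x v : U) : GL (Fin r) ℂ) := by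
        simp only [hy, Family.signMul]
        rw [if_pos h1]
      rw [h2, h1, Units.val_neg]
      simp
  · intro X hX1 hX2
    have hint : ∫ u, f u ∂μ = 0 := Family.integral_odd hneg μ f hodd
    have h1 := hE q χ hq2 hqQ hprim hnot X hX1 hX2
    refine le_trans (le_of_eq ?_) h1
    congr 1
    rw [hint]
    simp only [sub_zero]
    -- remove the primes dividing `q`
    have h2 : ∑ v ∈ (primesLE K X).filter (fun v => v ∉ D.bad ∧ (ℓ : 𝓞 K) ∉ v.asIdeal),
        ((χ (qv v : ZMod q) : ℤ) : ℂ) * f (x v) =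
        ∑ v ∈ (primesLE K X).filter (fun v => v ∉ (D.twist χ).bad ∧ (ℓ : 𝓞 K) ∉ v.asIdeal),
        ((χ (qv v : ZMod q) : ℤ) : ℂ) * f (x v) := by
      symm
      apply Finset.sum_subset
      · intro v hv
        rw [Finset.mem_filter] at hv ⊢
        exact ⟨hv.1, ((D.twist_bad χ).1 hv.2.1).1, hv.2.2⟩
      · intro v hv hv'
        rw [Finset.mem_filter] at hv hv'
        have h3 : (q : 𝓞 K) ∈ v.asIdeal := by
          by_contra hno
          exact hv' ⟨hv.1, (D.twist_bad χ).2 ⟨hv.2.1, hno⟩, hv.2.2⟩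
        have h4 : ¬ IsUnit (qv v : ZMod q) := by
          rw [ZMod.isUnit_iff_coprime]
          intro hcop
          obtain ⟨a, b, hab⟩ := Nat.isCoprime_iff_coprime.2 hcop
          have h8 : (1 : 𝓞 K) ∈ v.asIdeal := by
            have : (1 : 𝓞 K) = (a : 𝓞 K) * (qv v : ℕ) + (b : 𝓞 K) * q := by
              exact_mod_cast congrArg (fun z : ℤ => (z : 𝓞 K)) hab.symm
            rw [this]
            exact v.asIdeal.add_mem (v.asIdeal.mul_mem_left _ (Ideal.absNorm_mem v.asIdeal))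
              (v.asIdeal.mul_mem_left _ h3)
          exact v.isPrime.ne_top ((Ideal.eq_top_iff_one _).2 h8)
        rw [χ.map_nonunit h4]
        simp
    have h5 : ∑ v ∈ (primesLE K X).filter
        (fun v => v ∉ (D.twist χ).bad ∧ (ℓ : 𝓞 K) ∉ v.asIdeal), f (y v) =
        ∑ v ∈ (primesLE K X).filter
        (fun v => v ∉ (D.twist χ).bad ∧ (ℓ : 𝓞 K) ∉ v.asIdeal),
        ((χ (qv v : ZMod q) : ℤ) : ℂ) * f (x v) := by
      refine Finset.sum_congr rfl fun v hv => ?_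
      rw [Finset.mem_filter] at hv
      exact hyv v ((D.twist_bad χ).1 hv.2.1).2
    rw [h5, ← h2]
    refine Finset.sum_congr ?_ fun _ _ => rfl
    ext v
    simp only [Finset.mem_filter]

end Pool.Agent.Results.MP_4c4ce6_nt.QuadraticTwists
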