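import Pool.Agent.Helper7.ST.Residue
import Pool.Agent.Helper4.ST.Scale

set_option autoImplicit false

namespace Pool.Agent.Results.MP_4c4ce6_nt.ResidueClasses

open NumberField IsDedekindDomain Matrix MeasureTheory Pool.Agent.Helper4.ST
open scoped MatrixGroups

universe u w

open Classical in
/-- For every subgroup `H` of `(ℤ/qℤ)ˣ`, of index `m`, and every coset `a H`: the sum of `F v` over
the primes `v` with `q_v ≤ X`, `good v` and `q_v mod q ∈ a H`, multiplied by `m`, differs by at most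
`√m M` from the sum over all `v` with `q_v ≤ X`, `good v` that do not lie above `q`. -/
def CosetsClose {K : Type u} [Field K] [NumberField K] (good : HeightOneSpectrum (𝓞 K) → Prop)
    (F : HeightOneSpectrum (𝓞 K) → ℂ) (q X : ℕ) (M : ℝ) : Prop :=
  ∀ (H : Subgroup (ZMod q)ˣ) (a : (ZMod q)ˣ),
    ‖(H.index : ℂ) * ∑ v ∈ (primesLE K X).filter
        (fun v => good v ∧ ∃ h ∈ H, (qv v : ZMod q) = ((a * h : (ZMod q)ˣ) : ZMod q)), F v -
      ∑ v ∈ (primesLE K X).filter (fun v => good v ∧ (q : 𝓞 K) ∉ v.asIdeal), F v‖ ≤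
      Real.sqrt H.index * M

section generic

variable {K : Type u} [Field K] [NumberField K]

open Classical in
/-- The nonprincipal characters modulo `q`, as a set of characters. -/
noncomputable def Tq (q : ℕ) : Finset (Σ q : ℕ, DirichletCharacter ℂ q) :=
  if h : q = 0 then ∅ else
    haveI : NeZero q := ⟨h⟩
    (Pool.Agent.Helper7.ST.nonprin q).map ⟨Sigma.mk q, sigma_mk_injective⟩

theorem hTqmem (q : ℕ) (hq : q.Prime) (j : Σ q : ℕ, DirichletCharacter ℂ q) (hj : j ∈ Tq q) :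
    j.1 = q ∧ j.2.IsPrimitive := by
  unfold Tq at hj
  rw [dif_neg hq.ne_zero, Finset.mem_map] at hj
  obtain ⟨χ, hχ, rfl⟩ := hj
  have hNZ : NeZero q := ⟨hq.ne_zero⟩
  have hne : χ ≠ 1 := Pool.Agent.Helper7.ST.mem_nonprin.1 hχ
  have hp := Pool.Agent.Helper7.ST.primitive_of_prime hq hne
  exact ⟨rfl, hp⟩

theorem hdisj (Q : Finset ℕ) (hQ : ∀ q ∈ Q, q.Prime) : (Q : Set ℕ).PairwiseDisjoint Tq := by
  intro q hq q' hq' hne
  rw [Function.onFun, Finset.disjoint_left]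
  intro j hj hj'
  have e1 := (hTqmem q (hQ q hq) j hj).1
  have e2 := (hTqmem q' (hQ q' hq') j hj').1
  exact hne (e1.symm.trans e2)

open Classical in
theorem hclose (good : HeightOneSpectrum (𝓞 K) → Prop) (F : HeightOneSpectrum (𝓞 K) → ℂ)
    (q X : ℕ) (M : ℝ) (hq : q.Prime) (hM : 0 ≤ M)
    (h : ∑ j ∈ Tq q, ‖∑ v ∈ (primesLE K X).filter good, j.2 (qv v : ZMod j.1) * F v‖ ^ 2 ≤ M ^ 2) :
    CosetsClose good F q X M := by
  have hq0 : q ≠ 0 := hq.ne_zero
  have hNZ : NeZero q := ⟨hq0⟩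
  intro H a
  have h1 : ∑ χ ∈ Pool.Agent.Helper7.ST.nonprin q,
      ‖∑ v ∈ (primesLE K X).filter good, χ (qv v : ZMod q) * F v‖ ^ 2 ≤ M ^ 2 := by
    refine le_trans (le_of_eq ?_) h
    unfold Tq
    rw [dif_neg hq0, Finset.sum_map]
    rfl
  have h2 := Pool.Agent.Helper7.ST.coset_bound X good F q M hM h1 H a
  convert h2

open Classical in
theorem every (good : HeightOneSpectrum (𝓞 K) → Prop) (F : HeightOneSpectrum (𝓞 K) → ℂ)
    (hF : ∀ v, ‖F v‖ ≤ 1) (X : ℕ) (ε : ℝ) (hX : 2 ≤ X) (hε : 0 < ε) :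
    ∃ E : Finset ℕ, (E.card : ℝ) ≤ 1000 * (Module.finrank ℚ K / ε) ^ 2 ∧
      ∀ q : ℕ, q.Prime → q ^ 6 ≤ X → q ∉ E →
        CosetsClose good F q X (ε * (X / Real.log X)) := by
  have hX1 : (1 : ℝ) < X := by exact_mod_cast (by omega : 1 < X)
  have hlog : 0 < Real.log X := Real.log_pos hX1
  have hZ : 0 < (X : ℝ) / Real.log X := by positivity
  set E : Finset ℕ := (Finset.range (X + 1)).filter (fun q => q.Prime ∧ q ^ 6 ≤ X ∧
    ¬ CosetsClose good F q X (ε * (X / Real.log X))) with hE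
  refine ⟨E, ?_, ?_⟩
  · have hEp : ∀ q ∈ E, q.Prime := fun q hq => (Finset.mem_filter.1 hq).2.1
    have h1 := every_scale (K := K) good F hF X hX (E.biUnion Tq) (by
      intro j hj
      rw [Finset.mem_biUnion] at hj
      obtain ⟨q, hq, hj⟩ := hj
      obtain ⟨h1, h2⟩ := hTqmem q (hEp q hq) j hj
      have h3 := (Finset.mem_filter.1 hq).2
      exact ⟨by rw [h1]; exact h3.1.one_le, by rw [h1]; exact h3.2.1, h2⟩)
    rw [Finset.sum_biUnion (hdisj E hEp)] at h1
    have h2 : (E.card : ℝ) * (ε * (X / Real.log X)) ^ 2 ≤ ∑ q ∈ E, ∑ j ∈ Tq q,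
        ‖∑ v ∈ (primesLE K X).filter good, j.2 (qv v : ZMod j.1) * F v‖ ^ 2 := by
      rw [← nsmul_eq_mul, ← Finset.sum_const]
      refine Finset.sum_le_sum fun q hq => ?_
      by_contra hlt
      rw [not_le] at hlt
      exact (Finset.mem_filter.1 hq).2.2.2 (hclose good F q X _ (hEp q hq) (by positivity) hlt.le)
    have h3 : (E.card : ℝ) * ε ^ 2 * (X / Real.log X) ^ 2 ≤
        1000 * (Module.finrank ℚ K : ℝ) ^ 2 * (X / Real.log X) ^ 2 := by
      calc (E.card : ℝ) * ε ^ 2 * (X / Real.log X) ^ 2 =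
          (E.card : ℝ) * (ε * (X / Real.log X)) ^ 2 := by ring
        _ ≤ _ := h2.trans h1
    have h4 := le_of_mul_le_mul_right h3 (by positivity)
    rw [div_pow, ← mul_div_assoc, le_div_iff₀ (by positivity)]
    exact h4
  · intro q hq hqX hqE
    by_contra h
    apply hqE
    rw [hE, Finset.mem_filter, Finset.mem_range]
    refine ⟨?_, hq, hqX, h⟩
    have : q ≤ q ^ 6 := Nat.le_self_pow (by norm_num) q
    omega

open Classical in
theorem limit (good : HeightOneSpectrum (𝓞 K) → Prop) (F : HeightOneSpectrum (𝓞 K) → ℂ)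
    (hF : ∀ v, ‖F v‖ ≤ 1) (S : Set ℕ) (ε : ℝ) (hS : S.Infinite) (hε : 0 < ε) :
    ∃ E : Finset ℕ, (E.card : ℝ) ≤ (Module.finrank ℚ K / ε) ^ 2 ∧
      ∀ q : ℕ, q.Prime → q ∉ E →
        {X ∈ S | CosetsClose good F q X (ε * Nat.primeCounting X)}.Infinite := by
  set B : Set ℕ := {q | q.Prime ∧ ¬ {X ∈ S | CosetsClose good F q X
    (ε * Nat.primeCounting X)}.Infinite} with hB
  have hbound : ∀ Q : Finset ℕ, (∀ q ∈ Q, q ∈ B) →
      (Q.card : ℝ) ≤ (Module.finrank ℚ K / ε) ^ 2 := by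
    intro Q hQ
    have key : ∀ δ : ℝ, 0 < δ → (Q.card : ℝ) * ε ^ 2 ≤ (Module.finrank ℚ K : ℝ) ^ 2 + δ := by
      intro δ hδ
      set T : Finset (Σ q : ℕ, DirichletCharacter ℂ q) := Q.biUnion Tq with hT
      have hTprim : ∀ j ∈ T, j.1 ≠ 0 ∧ j.2.IsPrimitive := by
        intro j hj
        rw [hT, Finset.mem_biUnion] at hj
        obtain ⟨q, hq, hj⟩ := hj
        obtain ⟨h1, h2⟩ := hTqmem q (hQ q hq).1 j hj
        exact ⟨by rw [h1]; exact (hQ q hq).1.ne_zero, h2⟩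
      have h1 := Pool.Agent.Helper7.ST.bessel_K (K := K) T hTprim good (δ / 2) (half_pos hδ)
      have h2 := Pool.Agent.Helper7.ST.mean_square_le (K := K) good (δ / 2) (half_pos hδ)
      have h3 : ∀ᶠ X : ℕ in Filter.atTop, ∀ q ∈ Q, X ∈ S →
          ε ^ 2 ≤ ∑ j ∈ Tq q, ‖(∑ v ∈ (primesLE K X).filter good,
              j.2 (qv v : ZMod j.1) * F v) / (Nat.primeCounting X : ℂ)‖ ^ 2 := by
        rw [Filter.eventually_all_finset]
        intro q hq
        obtain ⟨M, hM⟩ := (Set.not_infinite.1 (hQ q hq).2).bddAbove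
        filter_upwards [Filter.eventually_gt_atTop M,
          Pool.Agent.Helper7.ST.tendsto_pi.eventually_gt_atTop 0] with X hX hpi hXS
        by_contra hlt
        rw [not_le] at hlt
        have h4 : ∑ j ∈ Tq q, ‖∑ v ∈ (primesLE K X).filter good,
            j.2 (qv v : ZMod j.1) * F v‖ ^ 2 ≤ (ε * Nat.primeCounting X) ^ 2 := by
          have h5 : ∑ j ∈ Tq q, ‖(∑ v ∈ (primesLE K X).filter good,
              j.2 (qv v : ZMod j.1) * F v) / (Nat.primeCounting X : ℂ)‖ ^ 2 =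
              (∑ j ∈ Tq q, ‖∑ v ∈ (primesLE K X).filter good,
                  j.2 (qv v : ZMod j.1) * F v‖ ^ 2) / (Nat.primeCounting X : ℝ) ^ 2 := by
            rw [Finset.sum_div]
            refine Finset.sum_congr rfl fun j _ => ?_
            rw [norm_div, Complex.norm_natCast, div_pow]
          rw [h5, div_lt_iff₀ (by positivity)] at hlt
          rw [mul_pow]
          exact hlt.le
        have : X ≤ M := hM ⟨hXS, hclose good F q X _ (hQ q hq).1 (by positivity) h4⟩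
        omega
      have h5 := h1.and (h2.and h3)
      obtain ⟨X₀, hX₀⟩ := Filter.eventually_atTop.1 h5
      obtain ⟨X, hXS, hX⟩ := hS.exists_gt X₀
      obtain ⟨g1, g2, g3⟩ := hX₀ X hX.le
      have g4 := g1 F hF
      have g5 := g2 F hF
      have g6 : (Q.card : ℝ) * ε ^ 2 ≤ ∑ j ∈ T, ‖(∑ v ∈ (primesLE K X).filter good,
              j.2 (qv v : ZMod j.1) * F v) / (Nat.primeCounting X : ℂ)‖ ^ 2 := by
        rw [hT, Finset.sum_biUnion (hdisj Q fun q hq => (hQ q hq).1), ← nsmul_eq_mul,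
          ← Finset.sum_const]
        exact Finset.sum_le_sum fun q hq => g3 q hq hXS
      linarith
    have h6 : (Q.card : ℝ) * ε ^ 2 ≤ (Module.finrank ℚ K : ℝ) ^ 2 :=
      le_of_forall_pos_le_add key
    rw [div_pow, le_div_iff₀ (by positivity)]
    exact h6
  have hfin : B.Finite := by
    by_contra hinf
    have hinf' : B.Infinite := hinf
    obtain ⟨T, hT1, hT2⟩ := hinf'.exists_subset_card_eq
      (⌊((Module.finrank ℚ K : ℝ) / ε) ^ 2⌋₊ + 1)
    have h7 := hbound T (fun c hc => hT1 hc)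
    rw [hT2] at h7
    push_cast at h7
    have h8 := Nat.lt_floor_add_one (((Module.finrank ℚ K : ℝ) / ε) ^ 2)
    linarith
  refine ⟨hfin.toFinset, hbound _ (fun c hc => (Set.Finite.mem_toFinset hfin).1 hc), ?_⟩
  intro q hq hqE
  by_contra h
  exact hqE ((Set.Finite.mem_toFinset hfin).2 ⟨hq, h⟩)


end generic

open Classical in
/-- **Sato-Tate averages in residue classes modulo all primes but a bounded number.**
Let `D` be a strictly compatible symplectic family of odd weight `n` over a number field `K` of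
degree `d`, with Sato-Tate group `U` and classes `x v`, and let `f` be any function on `U` with
`‖f‖ ≤ 1`.
(0) The Frobenius at `v` maps a `q`-th root of unity `ζ` to `ζ ^ q_v`, so that the condition on
`q_v mod q` in `CosetsClose` is one on the Frobenius in the subextension of `K(ζ_q)` fixed by `H`.
(1) For every `X ≥ 2` and `ε > 0`, all but at most `1000 (d / ε)²` of the primes `q ≤ X^(1/6)` are
such that for every subgroup `H` of `(ℤ/qℤ)ˣ`, of index `m`, and every coset `a H`,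
`|m ∑_{q_v ≤ X, q_v mod q ∈ a H} f (x v) - ∑_{q_v ≤ X} f (x v)| ≤ ε √m X / log X`.
(2) For every infinite set `S` of positive integers and every `ε > 0`, all but at most `(d / ε)²`
of all primes `q` are such that, for infinitely many `X ∈ S`, for every `H` and every coset `a H`,
`|m ∑_{q_v ≤ X, q_v mod q ∈ a H} f (x v) - ∑_{q_v ≤ X} f (x v)| ≤ ε √m π(X)`. -/
theorem result (K : Type u) [Field K] [NumberField K] (Ω : Type w) [Field Ω] [CharZero Ω]
    [Algebra K Ω] [IsAlgClosed Ω] [Algebra.IsAlgebraic K Ω] (r n : ℕ) (D : Family K Ω r n)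
    (ℓ : ℕ) [Fact ℓ.Prime] (τ : ℚ_[ℓ] →+* ℂ) (U : Subgroup (GL (Fin r) ℂ))
    (x : HeightOneSpectrum (𝓞 K) → U) (f : U → ℂ)
    (_hn : Odd n) (_hU : D.IsSatoTateGroup ℓ τ U)
    (_hx : ∀ v, v ∉ D.bad → (ℓ : 𝓞 K) ∉ v.asIdeal → D.IsSatoTateClass ℓ τ U v (x v))
    (hf : ∀ u, ‖f u‖ ≤ 1) :
    (∀ (q : ℕ) (v : HeightOneSpectrum (𝓞 K)) (σ : Ω ≃ₐ[K] Ω) (ζ : Ω), q.Prime →
      (q : 𝓞 K) ∉ v.asIdeal → IsFrob v σ → ζ ^ q = 1 → σ ζ = ζ ^ qv v) ∧
    (∀ (X : ℕ) (ε : ℝ), 2 ≤ X → 0 < ε →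
      ∃ E : Finset ℕ, (E.card : ℝ) ≤ 1000 * (Module.finrank ℚ K / ε) ^ 2 ∧
        ∀ q : ℕ, q.Prime → q ^ 6 ≤ X → q ∉ E →
          CosetsClose (fun v => v ∉ D.bad ∧ (ℓ : 𝓞 K) ∉ v.asIdeal) (fun v => f (x v)) q X
            (ε * (X / Real.log X))) ∧
    (∀ (S : Set ℕ) (ε : ℝ), S.Infinite → 0 < ε →
      ∃ E : Finset ℕ, (E.card : ℝ) ≤ (Module.finrank ℚ K / ε) ^ 2 ∧
        ∀ q : ℕ, q.Prime → q ∉ E →
          {X ∈ S | CosetsClose (fun v => v ∉ D.bad ∧ (ℓ : 𝓞 K) ∉ v.asIdeal) (fun v => f (x v)) q X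
            (ε * Nat.primeCounting X)}.Infinite) := by
  refine ⟨fun q v σ ζ hq hv hσ hζ => hσ.root hq.ne_zero hv hζ, ?_, ?_⟩
  · intro X ε hX hε
    exact every _ _ (fun v => hf _) X ε hX hε
  · intro S ε hS hε
    exact limit _ _ (fun v => hf _) S ε hS hε

end Pool.Agent.Results.MP_4c4ce6_nt.ResidueClasses
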