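import Pool.Agent.Helper4.ST.Scale

set_option autoImplicit false

namespace Pool.Agent.Results.MP_4c4ce6_nt.TwistsEveryScale

open NumberField IsDedekindDomain Matrix MeasureTheory Pool.Agent.Helper4.ST
open scoped MatrixGroups

universe u w

open Classical in
/-- **The odd part of the Sato-Tate law for all quadratic twists but a bounded number, at every
scale.**
Let `D` be a strictly compatible symplectic family of odd weight `n` over a number field `K`,
with Sato-Tate group `U`, classes `x v` and Haar probability measure `μ`, and let `f` be a function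
on `U` with `‖f‖ ≤ 1` and `f (-u) = - f u`.  Let `(χ i)` be any finite family of distinct primitive
real characters.  Then all the twists `D ⊗ χ i` have the Sato-Tate group `U`, with classes
`y i v = χ i (q_v) x v`, and for every `X ≥ 2`
`∑_i |∑_{q_v ≤ X} (f (y i v) - ∫ f dμ)| ^ 2 ≤ 1000 [K : ℚ] ^ 2 (X / log X) ^ 2`,
the outer sum being over all `i` for which `χ i` has conductor at most `X ^ (1/6)`. -/
theorem result (K : Type u) [Field K] [NumberField K] (Ω : Type w) [Field Ω] [CharZero Ω]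
      [Algebra K Ω] [IsAlgClosed Ω] [Algebra.IsAlgebraic K Ω] (r n : ℕ) (D : Family K Ω r n)
      (ℓ : ℕ) [Fact ℓ.Prime] (τ : ℚ_[ℓ] →+* ℂ) (U : Subgroup (GL (Fin r) ℂ))
      [MeasurableSpace U] [BorelSpace U] (μ : Measure U) [μ.IsHaarMeasure]
      [IsProbabilityMeasure μ] (x : HeightOneSpectrum (𝓞 K) → U) (f : U → ℂ)
      (hn : Odd n) (hU : D.IsSatoTateGroup ℓ τ U)
      (hx : ∀ v, v ∉ D.bad → (ℓ : 𝓞 K) ∉ v.asIdeal → D.IsSatoTateClass ℓ τ U v (x v))
      (hf : ∀ u, ‖f u‖ ≤ 1)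
      (hodd : ∀ u u' : U, (u' : GL (Fin r) ℂ) = -(u : GL (Fin r) ℂ) → f u' = -f u)
      (ι : Type) [Fintype ι] (q : ι → ℕ) [∀ i, NeZero (q i)]
      (χ : ∀ i, DirichletCharacter ℤ (q i)) (hprim : ∀ i, (χ i).IsPrimitive)
      (hinj : Function.Injective fun i => (⟨q i, χ i⟩ : Σ q : ℕ, DirichletCharacter ℤ q)) :
    ∃ y : ι → HeightOneSpectrum (𝓞 K) → U,
      (∀ i, (D.twist (χ i)).IsSatoTateGroup ℓ τ U ∧
        ∀ v, v ∉ (D.twist (χ i)).bad → (ℓ : 𝓞 K) ∉ v.asIdeal →
          (D.twist (χ i)).IsSatoTateClass ℓ τ U v (y i v) ∧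
          ((y i v : GL (Fin r) ℂ) : Matrix (Fin r) (Fin r) ℂ) =
            ((χ i (qv v : ZMod (q i)) : ℤ) : ℂ) •
              ((x v : GL (Fin r) ℂ) : Matrix (Fin r) (Fin r) ℂ)) ∧
      ∀ X : ℕ, 2 ≤ X →
        ∑ i with q i ^ 6 ≤ X, ‖∑ v ∈ (primesLE K X).filter
            (fun v => v ∉ (D.twist (χ i)).bad ∧ (ℓ : 𝓞 K) ∉ v.asIdeal),
            (f (y i v) - ∫ u, f u ∂μ)‖ ^ 2 ≤
          1000 * (Module.finrank ℚ K : ℝ) ^ 2 * (X / Real.log X) ^ 2 := by
  have hℓ0 : NeZero ℓ := ⟨(Fact.out : ℓ.Prime).ne_zero⟩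
  have hfrob : ∀ i, D.HasFrob ℓ (χ i) := by
    intro i
    obtain ⟨v, hv⟩ := exists_prime_notMem
      ((D.twist (χ i)).bad ∪ (Family.finite_dvd (K := K) ℓ).toFinset)
    rw [Finset.mem_union, not_or, Set.Finite.mem_toFinset] at hv
    have h1 := hx v ((D.twist_bad (χ i)).1 hv.1).1 hv.2
    obtain ⟨_, σ, hσ, _⟩ := h1
    exact ⟨v, hv.1, hv.2, σ, hσ⟩
  have hneg : (-1 : GL (Fin r) ℂ) ∈ U := by
    obtain ⟨v, hv⟩ := exists_prime_notMem
      (D.bad ∪ (Family.finite_dvd (K := K) ℓ).toFinset)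
    rw [Finset.mem_union, not_or, Set.Finite.mem_toFinset] at hv
    have h1 := hx v hv.1 hv.2
    obtain ⟨_, σ, hσ, _⟩ := h1
    exact D.neg_one_mem ℓ τ (D.neg_one_mem_zcl ℓ τ hn hv.1 hv.2 hσ) hU
  have hsU : ∀ i v, Family.signMul (χ i) (qv v) ((x v : U) : GL (Fin r) ℂ) ∈ U := by
    intro i v
    unfold Family.signMul
    split_ifs
    · have := U.mul_mem hneg (x v).2
      rwa [neg_one_mul] at this
    · exact (x v).2
  set y : ι → HeightOneSpectrum (𝓞 K) → U :=
    fun i v => ⟨Family.signMul (χ i) (qv v) (x v), hsU i v⟩ with hy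
  have hyv : ∀ i v, (q i : 𝓞 K) ∉ v.asIdeal →
      f (y i v) = ((χ i (qv v : ZMod (q i)) : ℤ) : ℂ) * f (x v) := by
    intro i v hv
    rcases char_unit (χ i) (qv_coprime v hv) with h1 | h1
    · have h2 : y i v = x v := by
        apply Subtype.ext
        simp only [hy, Family.signMul]
        rw [if_neg (by rw [h1]; decide)]
      rw [h2, h1]
      simp
    · have h2 : ((y i v : U) : GL (Fin r) ℂ) = -((x v : U) : GL (Fin r) ℂ) := by
        simp only [hy, Family.signMul]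
        rw [if_pos h1]
      rw [hodd _ _ h2, h1]
      simp
  refine ⟨y, ?_, ?_⟩
  · intro i
    refine ⟨Family.twist_group D ℓ τ (χ i) hn (hfrob i) hU, ?_⟩
    intro v hv hℓv
    have hv' := (D.twist_bad (χ i)).1 hv
    refine ⟨D.twist_class ℓ τ (χ i) hneg hn (hfrob i) hv'.2 (hx v hv'.1 hℓv), ?_⟩
    rcases char_unit (χ i) (qv_coprime v hv'.2) with h1 | h1
    · have h2 : ((y i v : U) : GL (Fin r) ℂ) = ((x v : U) : GL (Fin r) ℂ) := by
        simp only [hy, Family.signMul]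
        rw [if_neg (by rw [h1]; decide)]
      rw [h2, h1]
      simp
    · have h2 : ((y i v : U) : GL (Fin r) ℂ) = -((x v : U) : GL (Fin r) ℂ) := by
        simp only [hy, Family.signMul]
        rw [if_pos h1]
      rw [h2, h1, Units.val_neg]
      simp
  · intro X hX
    have hint : ∫ u, f u ∂μ = 0 := Family.integral_odd hneg μ f hodd
    -- the set of characters
    have hinj' : Function.Injective fun i =>
        toCSigma (⟨q i, χ i⟩ : Σ q : ℕ, DirichletCharacter ℤ q) := toCSigma_injective.comp hinj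
    set S : Finset (Σ q : ℕ, DirichletCharacter ℂ q) :=
      (Finset.univ.filter (fun i => q i ^ 6 ≤ X)).image
        (fun i => toCSigma (⟨q i, χ i⟩ : Σ q : ℕ, DirichletCharacter ℤ q)) with hS
    have hS' : ∀ j ∈ S, 1 ≤ j.1 ∧ j.1 ^ 6 ≤ X ∧ j.2.IsPrimitive := by
      intro j hj
      rw [hS, Finset.mem_image] at hj
      obtain ⟨i, hi, rfl⟩ := hj
      rw [Finset.mem_filter] at hi
      have h9 : (toC (χ i)).IsPrimitive := toC_primitive (hprim i)
      exact ⟨Nat.one_le_iff_ne_zero.2 (NeZero.ne (q i)), hi.2, h9⟩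
    have h1 := every_scale (fun v => v ∉ D.bad ∧ (ℓ : 𝓞 K) ∉ v.asIdeal) (fun v => f (x v))
      (fun v => hf _) X hX S hS'
    refine le_trans (le_of_eq ?_) h1
    rw [hS, Finset.sum_image (fun i _ i' _ h => hinj' h)]
    refine Finset.sum_congr rfl fun i _ => ?_
    congr 2
    rw [hint]
    simp only [sub_zero]
    have h2 : ∑ v ∈ (primesLE K X).filter (fun v => v ∉ D.bad ∧ (ℓ : 𝓞 K) ∉ v.asIdeal),
        ((χ i (qv v : ZMod (q i)) : ℤ) : ℂ) * f (x v) =
        ∑ v ∈ (primesLE K X).filter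
          (fun v => v ∉ (D.twist (χ i)).bad ∧ (ℓ : 𝓞 K) ∉ v.asIdeal),
        ((χ i (qv v : ZMod (q i)) : ℤ) : ℂ) * f (x v) := by
      symm
      apply Finset.sum_subset
      · intro v hv
        rw [Finset.mem_filter] at hv ⊢
        exact ⟨hv.1, ((D.twist_bad (χ i)).1 hv.2.1).1, hv.2.2⟩
      · intro v hv hv'
        rw [Finset.mem_filter] at hv hv'
        have h3 : (q i : 𝓞 K) ∈ v.asIdeal := by
          by_contra hno
          exact hv' ⟨hv.1, (D.twist_bad (χ i)).2 ⟨hv.2.1, hno⟩, hv.2.2⟩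
        have h4 : ¬ IsUnit (qv v : ZMod (q i)) := by
          rw [ZMod.isUnit_iff_coprime]
          intro hcop
          obtain ⟨a, b, hab⟩ := Nat.isCoprime_iff_coprime.2 hcop
          have h8 : (1 : 𝓞 K) ∈ v.asIdeal := by
            have : (1 : 𝓞 K) = (a : 𝓞 K) * (qv v : ℕ) + (b : 𝓞 K) * q i := by
              exact_mod_cast congrArg (fun z : ℤ => (z : 𝓞 K)) hab.symm
            rw [this]
            exact v.asIdeal.add_mem (v.asIdeal.mul_mem_left _ (Ideal.absNorm_mem v.asIdeal))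
              (v.asIdeal.mul_mem_left _ h3)
          exact v.isPrime.ne_top ((Ideal.eq_top_iff_one _).2 h8)
        rw [(χ i).map_nonunit h4]
        simp
    have h5 : ∑ v ∈ (primesLE K X).filter
        (fun v => v ∉ (D.twist (χ i)).bad ∧ (ℓ : 𝓞 K) ∉ v.asIdeal), f (y i v) =
        ∑ v ∈ (primesLE K X).filter
        (fun v => v ∉ (D.twist (χ i)).bad ∧ (ℓ : 𝓞 K) ∉ v.asIdeal),
        ((χ i (qv v : ZMod (q i)) : ℤ) : ℂ) * f (x v) := by
      refine Finset.sum_congr rfl fun v hv => ?_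
      rw [Finset.mem_filter] at hv
      exact hyv i v ((D.twist_bad (χ i)).1 hv.2.1).2
    rw [h5, ← h2]
    refine Finset.sum_congr ?_ fun _ _ => rfl
    ext v
    simp only [Finset.mem_filter]

end Pool.Agent.Results.MP_4c4ce6_nt.TwistsEveryScale
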